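import Pool.Agent.Lib.MP_795114_nt.Proof

set_option autoImplicit false

namespace Pool.Agent.Results.MP_795114_nt.Disproof

open Pool.Agent.Lib.MP_795114_nt

theorem result (𝔽 K : Type*) [Field 𝔽] [Fintype 𝔽] [Field K] [IsAlgClosed K] [Algebra 𝔽 K]
    (δ : Polynomial 𝔽 →ₐ[𝔽] K) (hδ : Function.Injective δ) :
    ∃ (n : ℕ) (F : Set (Fin n → K)) (Φ : Polynomial 𝔽 → Fin n → MvPolynomial (Fin n) K)
      (H : Set (Fin n → K)), IsAModule δ F Φ ∧ IsQVariety (Fintype.card 𝔽) H ∧ H ⊆ F ∧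
      ∀ G : Set (Fin n → K), IsQVariety (Fintype.card 𝔽) G → G ⊆ F →
        (∀ a, ∀ x ∈ G, polyMap (Φ a) x ∈ G) → G ⊆ H →
        ¬ FiniteIndexIn (G ∩ Tor F Φ) (H ∩ Tor F Φ) := by
  obtain ⟨n, F, Φ, H, h1, h2, h3, h4⟩ := main δ hδ
  exact ⟨n, F, Φ, H, h1, h2, h3, fun G _ _ => h4 G⟩

end Pool.Agent.Results.MP_795114_nt.Disproof
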