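import Pool.Agent.Lib.TM.MainB

set_option autoImplicit false

namespace Pool.Agent.Results.MP_795114_nt.DrinfeldProducts

open Pool.Agent.Lib.MP_795114_nt Pool.Agent.Lib.TM

theorem result (𝔽 K : Type) [Field 𝔽] [Fintype 𝔽] [Field K] [IsAlgClosed K] [Algebra 𝔽 K]
    (δ : Polynomial 𝔽 →ₐ[𝔽] K) (hδ : Function.Injective δ) (n : ℕ)
    (φ : Fin n → Polynomial 𝔽 → Polynomial K) (hφ : ∀ i, IsDrinfeld δ (φ i)) :
    Q1Holds Set.univ (prodPhi φ) ↔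
      ¬ ∃ (i j : Fin n) (k : ℕ) (u : Polynomial K), 0 < k ∧ u ∈ Lam1 (Fintype.card 𝔽) K ∧ u ≠ 0 ∧
        u.comp (φ j Polynomial.X) = (φ i (Polynomial.X ^ Fintype.card 𝔽 ^ k)).comp u :=
  ⟨fun h h' => thmBfwd 𝔽 K δ hδ n φ hφ h' h, thmBback 𝔽 K δ hδ n φ hφ⟩

end Pool.Agent.Results.MP_795114_nt.DrinfeldProducts
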