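import Pool.Agent.Lib.TM.P_Main

set_option autoImplicit false

namespace Pool.Agent.Results.MP_795114_nt.PureModules

open Pool.Agent.Lib.MP_795114_nt Pool.Agent.Lib.TM

theorem result (𝔽 K : Type) [Field 𝔽] [Fintype 𝔽] [Field K] [IsAlgClosed K] [Algebra 𝔽 K]
    (δ : Polynomial 𝔽 →ₐ[𝔽] K) (hδ : Function.Injective δ) (n : ℕ) (F : Set (Fin n → K))
    (Φ : Polynomial 𝔽 → Fin n → MvPolynomial (Fin n) K) (hF : IsAModule δ F Φ) (a b : ℕ)
    (hS : HasSlopeRange F Φ a b) (hab : a < Fintype.card 𝔽 * b) : Q1Holds F Φ :=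
  thmP 𝔽 K δ hδ n F Φ hF a b hS hab

end Pool.Agent.Results.MP_795114_nt.PureModules
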