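import Pool.Agent.Lib.TM.MainA

set_option autoImplicit false

namespace Pool.Agent.Results.MP_795114_nt.TwistedManinMumford

open Pool.Agent.Lib.MP_795114_nt Pool.Agent.Lib.TM

theorem result (𝔽 K : Type) [Field 𝔽] [Fintype 𝔽] [Field K] [IsAlgClosed K] [Algebra 𝔽 K]
    (δ : Polynomial 𝔽 →ₐ[𝔽] K) (hδ : Function.Injective δ) (n : ℕ) (F : Set (Fin n → K))
    (Φ : Polynomial 𝔽 → Fin n → MvPolynomial (Fin n) K) (hF : IsAModule δ F Φ)
    (hab : IsAbelian F Φ) (H : Set (Fin n → K)) (hH : IsQVariety (Fintype.card 𝔽) H)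
    (hHF : H ⊆ F) :
    ∃ J : ℕ, TwistSum F Φ H J ⊆ H ∩ Tor F Φ ∧
      FiniteIndexIn (TwistSum F Φ H J) (H ∩ Tor F Φ) :=
  thmA 𝔽 K δ hδ n F Φ hF hab H hH hHF

end Pool.Agent.Results.MP_795114_nt.TwistedManinMumford
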